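import Pool.Agent.H64.Final

/-!
# Regular continua and null sequences of disjoint connected sets: full answer

For every continuum (compact connected metric space, nonempty) `X` the following are equivalent:
(i) `X` is regular; (ii) every sequence of pairwise disjoint connected subsets of `X` is a null sequence.
Both are also equivalent to: (iii) for every `ε > 0` there is a bound `N` for the number of members of a
pairwise disjoint family of connected sets of diameter at least `ε`; (iv) for every `ε > 0` there is a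
finite set meeting every connected subset of diameter at least `ε`; (v) any two distinct points of `X` are
separated by a finite set.  The space may live in any universe.
-/

set_option autoImplicit false

open Set Filter Topology

universe u

namespace Pool.Agent.Results.MP_77b145_gt.RegularIffNull

/-- (i) `X` is *regular*: every point has arbitrarily small open neighbourhoods with finite boundary. -/
def Regular (X : Type u) [TopologicalSpace X] : Prop :=
  ∀ x : X, ∀ U : Set X, IsOpen U → x ∈ U →
    ∃ V : Set X, IsOpen V ∧ x ∈ V ∧ V ⊆ U ∧ (frontier V).Finite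

/-- (ii) every infinite sequence `C 0, C 1, ...` of pairwise disjoint connected (so nonempty, not
necessarily closed) subsets of `X` satisfies `diam (C n) → 0`. -/
def NullCondition (X : Type u) [MetricSpace X] : Prop :=
  ∀ C : ℕ → Set X, (∀ n, IsConnected (C n)) → (∀ m n, m ≠ n → C m ∩ C n = ∅) →
    Tendsto (fun n => Metric.diam (C n)) atTop (𝓝 0)

/-- (ii) once more, with the diameter written out: for every `ε > 0` all but finitely many sets of the
sequence have all distances at most `ε`; empty members are allowed. -/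
def NullConditionDist (X : Type u) [MetricSpace X] : Prop :=
  ∀ C : ℕ → Set X, (∀ n, IsPreconnected (C n)) → (∀ m n, m ≠ n → C m ∩ C n = ∅) →
    ∀ ε : ℝ, 0 < ε → ∃ N : ℕ, ∀ n, N ≤ n → ∀ a ∈ C n, ∀ b ∈ C n, dist a b ≤ ε

/-- (iii) for every `ε > 0` there is `N` such that every family of pairwise disjoint connected subsets
of `X`, each containing two points at distance at least `ε`, has at most `N` members. -/
def UniformBound (X : Type u) [MetricSpace X] : Prop :=
  ∀ ε : ℝ, 0 < ε → ∃ N : ℕ, ∀ 𝒞 : Set (Set X),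
    (∀ C ∈ 𝒞, IsConnected C ∧ ∃ a ∈ C, ∃ b ∈ C, ε ≤ dist a b) →
    (∀ C ∈ 𝒞, ∀ D ∈ 𝒞, C ≠ D → C ∩ D = ∅) → 𝒞.encard ≤ N

/-- (iv) for every `ε > 0` there is a finite set meeting every connected subset of `X` that contains two
points at distance at least `ε`. -/
def FiniteTransversal (X : Type u) [MetricSpace X] : Prop :=
  ∀ ε : ℝ, 0 < ε → ∃ F : Set X, F.Finite ∧ ∀ C : Set X, IsConnected C →
    (∃ a ∈ C, ∃ b ∈ C, ε ≤ dist a b) → (C ∩ F).Nonempty

/-- (v) any two distinct points are separated by a finite set: off a finite set, `X` is the union of two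
disjoint open sets, one containing `x`, the other containing `y`. -/
def FiniteSeparation (X : Type u) [TopologicalSpace X] : Prop :=
  ∀ x y : X, x ≠ y → ∃ U V : Set X, IsOpen U ∧ IsOpen V ∧ U ∩ V = ∅ ∧ x ∈ U ∧ y ∈ V ∧
    ((U ∪ V)ᶜ).Finite

section

variable {X : Type u} [MetricSpace X]

lemma transversal_of_regular [CompactSpace X] (h : Regular X) : FiniteTransversal X := by
  intro ε hε
  obtain ⟨F, hF, hFcov⟩ : ∃ F : Set X, F.Finite ∧ ∀ C : Set X, IsConnected C →
      (∃ a ∈ C, ∃ b ∈ C, ε ≤ dist a b) → (C ∩ univ).Nonempty → (C ∩ F).Nonempty := by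
    refine (isCompact_univ : IsCompact (univ : Set X)).induction_on (p := fun S => ∃ F : Set X,
      F.Finite ∧ ∀ C : Set X, IsConnected C → (∃ a ∈ C, ∃ b ∈ C, ε ≤ dist a b) →
        (C ∩ S).Nonempty → (C ∩ F).Nonempty) ?_ ?_ ?_ ?_
    · exact ⟨∅, finite_empty, fun C _ _ hne => by simp at hne⟩
    · rintro s t hst ⟨F, hF, h⟩
      exact ⟨F, hF, fun C h1 h2 h3 => h C h1 h2 (h3.mono (inter_subset_inter_right _ hst))⟩
    · rintro s t ⟨F, hF, h⟩ ⟨F', hF', h'⟩
      refine ⟨F ∪ F', hF.union hF', fun C h1 h2 h3 => ?_⟩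
      obtain ⟨x, hx1, hx2 | hx2⟩ := h3
      · exact (h C h1 h2 ⟨x, hx1, hx2⟩).mono (inter_subset_inter_right _ subset_union_left)
      · exact (h' C h1 h2 ⟨x, hx1, hx2⟩).mono (inter_subset_inter_right _ subset_union_right)
    · intro x _
      obtain ⟨V, hV, hxV, hVs, hVf⟩ := h x (Metric.ball x (ε / 2)) Metric.isOpen_ball
        (Metric.mem_ball_self (by positivity))
      refine ⟨V, mem_nhdsWithin_of_mem_nhds (hV.mem_nhds hxV), frontier V, hVf, ?_⟩
      rintro C hC ⟨a, ha, b, hb, hab⟩ ⟨y, hyC, hyV⟩
      have hnot : ¬ C ⊆ V := by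
        intro hCV
        have h1 := Metric.mem_ball.1 (hVs (hCV ha))
        have h2 := Metric.mem_ball.1 (hVs (hCV hb))
        have h3 := dist_triangle_right a b x
        linarith
      rw [not_subset] at hnot
      obtain ⟨w, hwC, hwV⟩ := hnot
      obtain ⟨c, hc1, hc2, hc3⟩ :=
        Pool.Agent.H64.exists_mem_frontier hC.isPreconnected hV hyC hyV hwC hwV
      exact ⟨c, hc1, by rw [hV.frontier_eq]; exact ⟨hc2, hc3⟩⟩
  refine ⟨F, hF, fun C hC hab => hFcov C hC hab ?_⟩
  rw [inter_univ]
  exact hC.nonempty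

lemma uniform_of_transversal (h : FiniteTransversal X) : UniformBound X := by
  intro ε hε
  obtain ⟨F, hF, hcov⟩ := h ε hε
  refine ⟨hF.toFinset.card, fun 𝒞 h1 h2 => ?_⟩
  have hch : ∀ C ∈ 𝒞, ∃ p, p ∈ C ∩ F := fun C hC => hcov C (h1 C hC).1 (h1 C hC).2
  obtain h0 | ⟨C0, hC0⟩ := 𝒞.eq_empty_or_nonempty
  · rw [h0, encard_empty]
    exact bot_le
  have hne : Nonempty X := ⟨(h1 C0 hC0).1.nonempty.some⟩
  choose! f hf using hch
  have hinj : InjOn f 𝒞 := by
    intro C hC D hD hCD
    by_contra hne
    have h3 := (hf C hC).1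
    have h4 := (hf D hD).1
    rw [← hCD] at h4
    have h5 : f C ∈ C ∩ D := ⟨h3, h4⟩
    rw [h2 C hC D hD hne] at h5
    exact h5
  rw [← hinj.encard_image]
  have hsub : f '' 𝒞 ⊆ F := by
    rintro _ ⟨C, hC, rfl⟩
    exact (hf C hC).2
  calc (f '' 𝒞).encard ≤ F.encard := encard_le_encard hsub
    _ = (hF.toFinset.card : ℕ∞) := hF.encard_eq_coe_toFinset_card

lemma nullDist_of_uniform (h : UniformBound X) : NullConditionDist X := by
  intro C hC hd ε hε
  obtain ⟨N, hN⟩ := h ε hε
  set I : Set ℕ := {n | ∃ a ∈ C n, ∃ b ∈ C n, ε ≤ dist a b} with hI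
  have hinj : InjOn C I := by
    rintro m ⟨a, ha, -⟩ n hn hmn
    by_contra hne
    have h5 : a ∈ C m ∩ C n := ⟨ha, hmn ▸ ha⟩
    rw [hd m n hne] at h5
    exact h5
  have hfin : (C '' I).encard ≤ N := by
    apply hN
    · rintro _ ⟨n, hn, rfl⟩
      obtain ⟨a, ha, b, hb, hab⟩ := hn
      exact ⟨⟨⟨a, ha⟩, hC n⟩, a, ha, b, hb, hab⟩
    · rintro _ ⟨m, hm, rfl⟩ _ ⟨n, hn, rfl⟩ hne
      exact hd m n (fun hmn => hne (by rw [hmn]))
  have hIfin : I.Finite := by
    have h1 : (C '' I).Finite := finite_of_encard_le_coe hfin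
    exact Set.Finite.of_finite_image h1 hinj
  obtain ⟨M, hM⟩ := hIfin.bddAbove
  refine ⟨M + 1, fun n hn a ha b hb => ?_⟩
  by_contra hcon
  have : n ∈ I := ⟨a, ha, b, hb, (not_le.1 hcon).le⟩
  have := hM this
  omega

lemma null_of_nullDist [CompactSpace X] (h : NullConditionDist X) : NullCondition X := by
  intro C hC hd
  rw [Metric.tendsto_atTop]
  intro ε hε
  obtain ⟨N, hN⟩ := h C (fun n => (hC n).isPreconnected) hd (ε / 2) (by positivity)
  refine ⟨N, fun n hn => ?_⟩
  rw [Real.dist_eq, sub_zero, abs_of_nonneg Metric.diam_nonneg]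
  have := Metric.diam_le_of_forall_dist_le (by positivity) (hN n hn)
  linarith

/-- the new implication, in any universe (through the isometric embedding into `ℓ^∞`) -/
lemma regular_of_null [CompactSpace X] [ConnectedSpace X] (h : NullCondition X) : Regular X := by
  set K : Set (lp (fun _ : ℕ => ℝ) ⊤) := range (kuratowskiEmbedding X) with hK
  have hiso : Isometry (kuratowskiEmbedding X) := kuratowskiEmbedding.isometry X
  have hKc : CompactSpace K := isCompact_iff_compactSpace.1 (isCompact_range hiso.continuous)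
  have hKconn : ConnectedSpace K := by
    rw [← isConnected_iff_connectedSpace]
    exact isConnected_range hiso.continuous
  let e : X ≃ᵢ K := hiso.isometryEquivOnRange
  have key := (Pool.Agent.H64.main_theorem K).2 (by
    intro A hA hd
    have h1 := h (fun n => e ⁻¹' A n) (by
      intro n
      have h2 : e ⁻¹' A n = e.symm '' A n := by
        ext x
        constructor
        · intro hx
          exact ⟨e x, hx, e.symm_apply_apply x⟩
        · rintro ⟨y, hy, rfl⟩
          change e (e.symm y) ∈ A n
          rwa [e.apply_symm_apply]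
      rw [h2]
      exact (hA n).image _ e.symm.continuous.continuousOn) (by
      intro m n hmn
      rw [← preimage_inter, (disjoint_iff_inter_eq_empty.1 (hd hmn)), preimage_empty])
    simpa only [e.diam_preimage] using h1)
  intro x U hU hx
  obtain ⟨V, hV, hxV, hVU, hVf⟩ := key (e x) (e.symm ⁻¹' U)
    (hU.preimage e.symm.continuous) (by
      change e.symm (e x) ∈ U
      rwa [e.symm_apply_apply])
  refine ⟨e ⁻¹' V, hV.preimage e.continuous, hxV, ?_, ?_⟩
  · intro y hy
    have h1 := hVU hy
    change e.symm (e y) ∈ U at h1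
    rwa [e.symm_apply_apply] at h1
  · have h1 : frontier (e ⁻¹' V) = e ⁻¹' (frontier V) :=
      (e.toHomeomorph.preimage_frontier V).symm
    rw [h1]
    exact hVf.preimage e.injective.injOn

lemma separation_of_regular (h : Regular X) : FiniteSeparation X := by
  intro x y hxy
  have hd : 0 < dist x y := dist_pos.2 hxy
  obtain ⟨V, hV, hxV, hVU, hVf⟩ := h x (Metric.ball x (dist x y / 2)) Metric.isOpen_ball
    (Metric.mem_ball_self (by positivity))
  refine ⟨V, (closure V)ᶜ, hV, isClosed_closure.isOpen_compl, ?_, hxV, ?_, ?_⟩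
  · ext z
    simp only [mem_inter_iff, mem_compl_iff, mem_empty_iff_false, iff_false, not_and, not_not]
    exact fun hz => subset_closure hz
  · intro hy
    have h1 : closure V ⊆ Metric.closedBall x (dist x y / 2) :=
      (closure_mono hVU).trans Metric.closure_ball_subset_closedBall
    have h2 := Metric.mem_closedBall.1 (h1 hy)
    rw [dist_comm] at h2
    linarith
  · refine hVf.subset ?_
    intro z hz
    rw [hV.frontier_eq]
    simp only [compl_union, compl_compl, mem_inter_iff, mem_compl_iff] at hz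
    exact ⟨hz.2, hz.1⟩

lemma regular_of_separation [CompactSpace X] (h : FiniteSeparation X) : Regular X := by
  intro x U hU hx
  have hK : IsCompact Uᶜ := hU.isClosed_compl.isCompact
  obtain ⟨V, hV, hxV, W, hW, hKW, hVW, hVf⟩ : ∃ V : Set X, IsOpen V ∧ x ∈ V ∧ ∃ W : Set X,
      IsOpen W ∧ Uᶜ ⊆ W ∧ V ∩ W = ∅ ∧ ((V ∪ W)ᶜ).Finite := by
    refine hK.induction_on (p := fun S => ∃ V : Set X, IsOpen V ∧ x ∈ V ∧ ∃ W : Set X,
      IsOpen W ∧ S ⊆ W ∧ V ∩ W = ∅ ∧ ((V ∪ W)ᶜ).Finite) ?_ ?_ ?_ ?_
    · refine ⟨univ, isOpen_univ, mem_univ x, ∅, isOpen_empty, empty_subset _, by simp, by simp⟩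
    · rintro s t hst ⟨V, hV, hxV, W, hW, h1, h2, h3⟩
      exact ⟨V, hV, hxV, W, hW, hst.trans h1, h2, h3⟩
    · rintro s t ⟨V, hV, hxV, W, hW, h1, h2, h3⟩ ⟨V', hV', hxV', W', hW', h1', h2', h3'⟩
      refine ⟨V ∩ V', hV.inter hV', ⟨hxV, hxV'⟩, W ∪ W', hW.union hW', ?_, ?_, ?_⟩
      · exact union_subset (h1.trans subset_union_left) (h1'.trans subset_union_right)
      · rw [eq_empty_iff_forall_notMem] at h2 h2' ⊢
        rintro z ⟨⟨hz1, hz2⟩, hz3 | hz3⟩
        · exact h2 z ⟨hz1, hz3⟩
        · exact h2' z ⟨hz2, hz3⟩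
      · refine (h3.union h3').subset ?_
        intro z hz
        by_contra hcon
        simp only [mem_union, mem_compl_iff, not_or, not_and, not_not, mem_inter_iff] at hz hcon
        tauto
    · intro y hy
      have hxy : x ≠ y := fun hxy => hy (hxy ▸ hx)
      obtain ⟨V, W, hV, hW, hVW, hxV, hyW, hfin⟩ := h x y hxy
      exact ⟨W, mem_nhdsWithin_of_mem_nhds (hW.mem_nhds hyW), V, hV, hxV, W, hW, Subset.rfl,
        hVW, hfin⟩
  refine ⟨V, hV, hxV, ?_, hVf.subset ?_⟩
  · intro z hz
    by_contra hzU
    have h1 : z ∈ V ∩ W := ⟨hz, hKW hzU⟩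
    rw [hVW] at h1
    exact h1
  · intro z hz
    rw [hV.frontier_eq] at hz
    rintro (hzV | hzW)
    · exact hz.2 hzV
    · obtain ⟨y, hy1, hy2⟩ := mem_closure_iff.1 hz.1 W hW hzW
      have h1 : y ∈ V ∩ W := ⟨hy2, hy1⟩
      rw [hVW] at h1
      exact h1

end

/-- **Full answer to Q1 (positive).**  Let `X` be a continuum, that is, a compact connected (nonempty)
metric space.  Then `X` is regular if and only if every infinite sequence of pairwise disjoint connected
subsets of `X` has diameters tending to zero; and this is also equivalent to each of: the same condition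
with the diameters written out, a uniform bound for the number of disjoint connected sets of diameter at
least `ε`, a finite set meeting all connected sets of diameter at least `ε`, and the separation of any two
points by a finite set. -/
theorem result (X : Type u) [MetricSpace X] [CompactSpace X] [ConnectedSpace X] :
    (Regular X ↔ NullCondition X) ∧ (Regular X ↔ NullConditionDist X) ∧
    (Regular X ↔ UniformBound X) ∧ (Regular X ↔ FiniteTransversal X) ∧
    (Regular X ↔ FiniteSeparation X) := by
  have h14 : Regular X → FiniteTransversal X := transversal_of_regular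
  have h43 : FiniteTransversal X → UniformBound X := uniform_of_transversal
  have h32' : UniformBound X → NullConditionDist X := nullDist_of_uniform
  have h2'2 : NullConditionDist X → NullCondition X := null_of_nullDist
  have h21 : NullCondition X → Regular X := regular_of_null
  exact ⟨⟨fun h => h2'2 (h32' (h43 (h14 h))), h21⟩, ⟨fun h => h32' (h43 (h14 h)), fun h => h21 (h2'2 h)⟩,
    ⟨fun h => h43 (h14 h), fun h => h21 (h2'2 (h32' h))⟩, ⟨h14, fun h => h21 (h2'2 (h32' (h43 h)))⟩,
    ⟨separation_of_regular, regular_of_separation⟩⟩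

end Pool.Agent.Results.MP_77b145_gt.RegularIffNull
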